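import Pool.Agent.Q222.CY.Split

/-!
# Ivrii's conjecture for trajectories with cylindrical bounces, in particular for product tables

A function `f : ℝ^d → ℝ` of class `C²` defines the table `{f < 0}`.

* `Traj f n p u`: `(p k, u k)`, `k = 0, ..., n`, is a piece of a billiard trajectory with the
  bounce points `p k` and the outgoing unit velocities `u k` (every bounce is transversal, at a
  point where the gradient of `f` does not vanish);
* `CylAt V f q`: near `q` the boundary `{f = 0}` is a cylinder with generators parallel to the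
  subspace `V` (any shape in the directions orthogonal to `V`);
* `Split f p a b`: there is a splitting of `ℝ^d` into two orthogonal subspaces `V` and `Vᗮ`, both
  different from zero, such that at each bounce point `p j`, `a < j < b`, the boundary is
  cylindrical along `V` or cylindrical along `Vᗮ`.

Theorem. (1) Almost no trajectory meets a boundary point twice with a splitting for the bounces in
between. (2) Almost no periodic trajectory has a splitting for all the bounces of a period except at
most one, which is arbitrary. (3) If `f (x) = g (x) h (x)` where `g` depends on the component of `x`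
in `V` only and `h` depends on the component in `Vᗮ` only (the table is a product of two tables,
which are arbitrary, bounded by the zero sets of `g` and of `h`), then almost no trajectory meets a
boundary point twice; in particular the periodic points (the set of the frozen statement) form a
null set.

Proof. A trajectory is the product of its projections to `V` and to `Vᗮ`, the path of each of the
projections does not change if the ratio of the two speeds is changed slightly, so the times at
which the two projections come back determine the ratio. Hence the set of the returning trajectories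
meets each orbit of the change of the ratio in a countable set; this set is Borel (Lusin-Souslin), so
Fubini's theorem applies. The largest subspaces along which the boundary is cylindrical at its
points form a countable set, so all splittings can be treated at once.
-/

set_option autoImplicit false

open Set MeasureTheory

namespace Pool.Agent.Results.MP_249f74_an.CylindricalBounces

/-- Euclidean space. -/
abbrev E (d : ℕ) : Type := EuclideanSpace ℝ (Fin d)

/-- `(p k, u k)`, `k = 0, ..., n`, is a piece of a billiard trajectory in the table `{f < 0}`, with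
bounce points `p k` and outgoing velocities `u k`: all of these points (the first and the last one
included) are boundary points, the velocity `u k` is a unit vector which points into the table, the
particle stays in the table between `p k` and `p (k+1)`, and `u (k+1)` is the reflected velocity. -/
def Traj {d : ℕ} (f : E d → ℝ) (n : ℕ) (p u : ℕ → E d) : Prop :=
  (∀ k ≤ n, f (p k) = 0 ∧ ‖u k‖ = 1 ∧ inner ℝ (u k) (gradient f (p k)) < 0) ∧
  ∀ k < n, (∃ t : ℝ, 0 < t ∧ p (k + 1) = p k + t • u k ∧
      ∀ s ∈ Ioo (0 : ℝ) t, f (p k + s • u k) < 0) ∧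
    u (k + 1) = u k - (2 * inner ℝ (u k) (gradient f (p (k + 1))) /
      ‖gradient f (p (k + 1))‖ ^ 2) • gradient f (p (k + 1))

/-- Near `q` the boundary `{f = 0}` is a cylinder with generators parallel to `V`. -/
def CylAt {d : ℕ} (V : Submodule ℝ (E d)) (f : E d → ℝ) (q : E d) : Prop :=
  ∃ r > 0, ∀ x ∈ Metric.ball q r, ∀ y ∈ Metric.ball q r, x - y ∈ V → f x = 0 → f y = 0

/-- The phase points whose trajectory meets some boundary point twice, `p k = p l`, such that for
some splitting `ℝ^d = V ⊕ Vᗮ` into two nonzero subspaces all the bounces strictly in between are at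
points where the boundary is cylindrical along `V` or along `Vᗮ`. -/
def TwiceSplit {d : ℕ} (f : E d → ℝ) : Set (E d × E d) :=
  {x | ∃ (n : ℕ) (p u : ℕ → E d), Traj f n p u ∧ p 0 = x.1 ∧ u 0 = x.2 ∧
    ∃ k l : ℕ, k < l ∧ l ≤ n ∧ p k = p l ∧ ∃ V : Submodule ℝ (E d), V ≠ ⊥ ∧ V ≠ ⊤ ∧
      ∀ j, k < j → j < l → CylAt V f (p j) ∨ CylAt Vᗮ f (p j)}

/-- The phase points whose trajectory meets some boundary point twice. -/
def Twice {d : ℕ} (f : E d → ℝ) : Set (E d × E d) :=
  {x | ∃ (n : ℕ) (p u : ℕ → E d), Traj f n p u ∧ p 0 = x.1 ∧ u 0 = x.2 ∧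
    ∃ k l : ℕ, k < l ∧ l ≤ n ∧ p k = p l}

/-- The periodic phase points, with a condition `C n p` on the period `n` and the bounce points
`p k`; without the condition (`C` always true) this is the set of the frozen statement. -/
def Per {d : ℕ} (f : E d → ℝ) (C : ℕ → (ℕ → E d) → Prop) : Set (E d × E d) :=
  {q | f q.1 = 0 ∧ ‖q.2‖ = 1 ∧ inner ℝ q.2 (gradient f q.1) < 0 ∧
    ∃ n : ℕ, 1 ≤ n ∧ ∃ p u : ℕ → E d,
      p 0 = q.1 ∧ u 0 = q.2 ∧ p n = q.1 ∧ u n = q.2 ∧
      (∀ k < n, f (p k) = 0 ∧ ‖u k‖ = 1 ∧ inner ℝ (u k) (gradient f (p k)) < 0 ∧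
        (∃ t : ℝ, 0 < t ∧ p (k + 1) = p k + t • u k ∧
          ∀ s ∈ Ioo (0 : ℝ) t, f (p k + s • u k) < 0) ∧
        u (k + 1) = u k - (2 * inner ℝ (u k) (gradient f (p (k + 1))) /
            ‖gradient f (p (k + 1))‖ ^ 2) • gradient f (p (k + 1))) ∧
      C n p}

/-- For some splitting `ℝ^d = V ⊕ Vᗮ` into two nonzero subspaces all the bounces `p k`, `k < n`, with
at most one exception, are at points where the boundary is cylindrical along `V` or along `Vᗮ`. -/
def SplitButOne {d : ℕ} (f : E d → ℝ) (n : ℕ) (p : ℕ → E d) : Prop :=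
  ∃ V : Submodule ℝ (E d), V ≠ ⊥ ∧ V ≠ ⊤ ∧ ∃ m < n, ∀ k < n, k ≠ m →
    CylAt V f (p k) ∨ CylAt Vᗮ f (p k)

theorem twice_split_null {d : ℕ} {f : E d → ℝ} (hf : ContDiff ℝ 2 f) :
    μH[((2 * d - 2 : ℕ) : ℝ)] (TwiceSplit f) = 0 :=
  Pool.Agent.Q222.CY.null_TwiceAll hf finrank_euclideanSpace_fin

theorem per_subset {d : ℕ} (f : E d → ℝ) : Per f (SplitButOne f) ⊆ TwiceSplit f := by
  rintro ⟨q, v⟩ ⟨hq, hv, hqv, n, hn, p, u, hp0, hu0, hpn, hun, H, V, hV, hV', m, hm, hC⟩
  simp only at hq hv hqv hp0 hu0 hpn hun
  have HT : Pool.Agent.Y322.IV.Traj f n p u := by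
    refine ⟨fun k hk => ?_, fun k hk => (H k hk).2.2.2⟩
    rcases eq_or_lt_of_le hk with rfl | hk
    · rw [hpn, hun]; exact ⟨hq, hv, hqv⟩
    · exact ⟨(H k hk).1, (H k hk).2.1, (H k hk).2.2.1⟩
  refine ⟨n + n, _, _, HT.double (hpn.trans hp0.symm) (hun.trans hu0.symm), ?_, ?_,
    m, m + n, by omega, by omega, ?_, V, hV, hV', ?_⟩
  · simp only [if_pos (show 0 < n by omega)]; exact hp0
  · simp only [if_pos (show 0 < n by omega)]; exact hu0
  · simp [hm]
  · intro j hj1 hj2
    by_cases hjn : j < n
    · simp only [if_pos hjn]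
      exact hC j hjn (by omega)
    · simp only [if_neg hjn]
      exact hC (j - n) (by omega) (by omega)

/-- **Ivrii's conjecture for trajectories with cylindrical bounces and for product tables.** -/
theorem result : ∀ (d : ℕ) (f : E d → ℝ), ContDiff ℝ 2 f →
    μH[((2 * d - 2 : ℕ) : ℝ)] (TwiceSplit f) = 0 ∧
    μH[((2 * d - 2 : ℕ) : ℝ)] (Per f (SplitButOne f)) = 0 ∧
    ∀ (V : Submodule ℝ (E d)) (g h : E d → ℝ), V ≠ ⊥ → V ≠ ⊤ → ContDiff ℝ 2 g → ContDiff ℝ 2 h →
      (∀ x, ∀ w ∈ Vᗮ, g (x + w) = g x) → (∀ x, ∀ w ∈ V, h (x + w) = h x) →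
      (∀ x, f x = g x * h x) →
      μH[((2 * d - 2 : ℕ) : ℝ)] (Twice f) = 0 ∧
      μH[((2 * d - 2 : ℕ) : ℝ)] (Per f fun _ _ => True) = 0 := by
  intro d f hf
  refine ⟨twice_split_null hf, measure_mono_null (per_subset f) (twice_split_null hf), ?_⟩
  intro V g h hV hV' hg hh hgV hhV hfg
  have hcyl : ∀ q : E d, gradient f q ≠ 0 → CylAt V f q ∨ CylAt Vᗮ f q := fun q hq =>
    Pool.Agent.Q222.CY.cyl_of_prod hg hh hfg hgV hhV hq
  refine ⟨measure_mono_null ?_ (twice_split_null hf),
    measure_mono_null ?_ (measure_mono_null (per_subset f) (twice_split_null hf))⟩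
  · rintro x ⟨n, p, u, H, hp, hu, k, l, hkl, hln, hkl'⟩
    refine ⟨n, p, u, H, hp, hu, k, l, hkl, hln, hkl', V, hV, hV', fun j _ hj => hcyl _ ?_⟩
    intro h0
    have := (H.1 j (by omega)).2.2
    rw [h0, inner_zero_right] at this
    exact lt_irrefl _ this
  · rintro q ⟨h1, h2, h3, n, hn, p, u, a1, a2, a3, a4, H, -⟩
    refine ⟨h1, h2, h3, n, hn, p, u, a1, a2, a3, a4, H, V, hV, hV', 0, by omega, ?_⟩
    intro k hk _
    refine hcyl _ fun h0 => ?_
    have := (H k hk).2.2.1
    rw [h0, inner_zero_right] at this
    exact lt_irrefl _ this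

end Pool.Agent.Results.MP_249f74_an.CylindricalBounces
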