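import Mathlib
import Pool.Agent.H719R3.FO.Top
import Pool.Agent.H719R3.FO.CUB
import Pool.Agent.H719R3.FO.CUB1
import Pool.Agent.H719R3.FO.CUB2

/-!
# Ivrii's conjecture, strong form, for convex tables bounded by algebraic curves with many focal lines

For these tables, for instance for all strictly convex tables whose boundary lies on a nonsingular
irreducible cubic, for every `n` there are only FINITELY many closed billiard polygons with `n`
vertices.  So the set of the periodic points of the billiard map is countable, in particular a null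
set of the phase space.

Definitions (points of the plane are complex numbers, a real algebraic curve is written as
`P (z, conj z) = 0`):

* `Table Ω` (`Pool.Agent.H719R3.BG.Table`): `Ω` is open, bounded, nonempty, convex, its closure is
  strictly convex and every boundary point has one tangent line;
* `Tangent Ω p u`: the line through `p` with direction `u ≠ 0` does not meet `Ω`;
* `Polygon Ω n x`: `x : ℤ → ℂ` has period `n`, its points are boundary points, consecutive points
  are different, and at each `x j` the line through `x j` and `x (j + 1)` is the mirror image of the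
  line through `x (j - 1)` and `x j` in the tangent line;
* `Ct 0 1 P ![a, b] r` (`H719FO.Ct`): `(a, b)` is a nonsingular point of the complex curve `P = 0`
  at which the isotropic line `X 0 = a` has contact of order exactly `r` with the curve;
* `Fl 0 1 d P Q` : `Q` is the polynomial `P (X 0, 1 / X 1) (X 1) ^ d`;
* `H719FO.Hyp P F G r`: `F` is a finite set of isotropic lines `X 0 = a` which touch the curve at a
  finite nonsingular point with order of contact `r a ≥ 2`, `G` is a finite set, disjoint from `F`,
  of isotropic lines which touch the curve at infinity at a nonsingular branch (`Q` has contact of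
  order `r a ≥ 1` with `X 0 = a` at `(a, 0)`), and `∑_F 2 r + ∑_G (2 r + 3) > 4 deg P`;
* `H719FO.Nsg P`: the complex affine curve `P = 0` is nonsingular;
* `H719FO.Trv P`: the leading form of `P` has no multiple linear factor (the curve is transversal
  to the line at infinity); it may pass through the circular points;
* `Per Ω`: the pairs `(q, v)` of a point `q` of the boundary and a unit vector `v` such that the
  trajectory which leaves `q` in the direction `v` is a closed billiard polygon.
-/

set_option autoImplicit false

open H450BH Pool.Agent.H719R3.BG H719FO MeasureTheory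
open scoped ComplexConjugate

namespace Pool.Agent.Results.MP_249f74_an.FinitelyManyPolygons

/-- The periodic points of the billiard map of `Ω`. -/
def Per (Ω : Set ℂ) : Set (ℂ × ℂ) :=
  {y | ∃ n : ℕ, 0 < n ∧ ∃ x : ℤ → ℂ, Polygon Ω n x ∧ y.1 = x 0 ∧
    y.2 = (x 1 - x 0) / (‖x 1 - x 0‖ : ℝ)}

theorem finite_of {Ω : Set ℂ} (hΩ : Table Ω) {P : MvPolynomial (Fin 2) ℂ} (hP : Irreducible P)
    (hf : ∀ p ∈ frontier Ω, MvPolynomial.eval ![p, conj p] P = 0)
    (h : (∃ (F G : Finset ℂ) (r : ℂ → ℕ), Hyp P F G r) ∨
      (P.totalDegree = 3 ∧ Nsg P ∧ Trv P)) {n : ℕ} (hn : 0 < n) :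
    {x : ℤ → ℂ | Polygon Ω n x}.Finite := by
  rcases h with ⟨F, G, r, h⟩ | ⟨h1, h2, h3⟩
  · exact finite_polygons Ω hΩ P hP hf F G r h n hn
  · obtain ⟨F, G, r, h⟩ := CUB_proof CUB1_proof CUB2_proof P hP h1 h2 h3
    exact finite_polygons Ω hΩ P hP hf F G r h n hn

theorem countable_of {Ω : Set ℂ} (h : ∀ n : ℕ, 0 < n → {x : ℤ → ℂ | Polygon Ω n x}.Finite) :
    (Per Ω).Countable := by
  have h1 : Per Ω ⊆ ⋃ n : ℕ, (fun x : ℤ → ℂ => (x 0, (x 1 - x 0) / ((‖x 1 - x 0‖ : ℝ) : ℂ))) ''
      {x : ℤ → ℂ | 0 < n ∧ Polygon Ω n x} := by
    rintro y ⟨n, hn, x, hx, h1, h2⟩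
    exact Set.mem_iUnion.2 ⟨n, x, ⟨hn, hx⟩, Prod.ext h1.symm h2.symm⟩
  refine (Set.countable_iUnion fun n => ?_).mono h1
  refine Set.Countable.image ?_ _
  rcases Nat.eq_zero_or_pos n with rfl | hn
  · simp
  · exact ((h n hn).subset fun x hx => hx.2).countable

/-- **Ivrii's conjecture in the strong form.**  Let the boundary of the strictly convex table `Ω`
lie on the irreducible algebraic curve `P (z, conj z) = 0`, which has isotropic tangents of total
weight greater than `4 deg P`, or is a nonsingular cubic transversal to the line at infinity.  Then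
for every `n` there are only finitely many closed billiard polygons with `n` vertices; the set of
the periodic points of the billiard map is countable and has measure zero in the phase space (and
`s`-dimensional Hausdorff measure zero for every `s > 0`). -/
theorem result (Ω : Set ℂ) (hΩ : Table Ω) (P : MvPolynomial (Fin 2) ℂ) (hP : Irreducible P)
    (hf : ∀ p ∈ frontier Ω, MvPolynomial.eval ![p, conj p] P = 0)
    (h : (∃ (F G : Finset ℂ) (r : ℂ → ℕ), Hyp P F G r) ∨
      (P.totalDegree = 3 ∧ Nsg P ∧ Trv P)) :
    (∀ n : ℕ, 0 < n → {x : ℤ → ℂ | Polygon Ω n x}.Finite) ∧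
    (Per Ω).Countable ∧
    ∀ s : ℝ, 0 < s → μH[s] (Per Ω) = 0 := by
  have h1 : ∀ n : ℕ, 0 < n → {x : ℤ → ℂ | Polygon Ω n x}.Finite :=
    fun n hn => finite_of hΩ hP hf h hn
  have h2 := countable_of h1
  refine ⟨h1, h2, fun s hs => ?_⟩
  have := Measure.nullSingletonClass_hausdorff (ℂ × ℂ) hs
  exact h2.measure_zero _

end Pool.Agent.Results.MP_249f74_an.FinitelyManyPolygons
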